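import Mathlib
import Pool.Agent.Lib.MP_e77370_co.Limits

/-!
# The proposed bound for non-empty cross-`q`-intersecting families is false

For every `q ≥ 2` and every `t ≥ 3`, whatever the differences `k_j - k_t` and the difference
`n - k_1 - k_2 ≥ 0` are, the proposed inequality fails as soon as the sizes are large.
-/

namespace Pool.Agent.Results.MP_e77370_co.Disproof

open Finset Filter Topology Pool.Agent.MP_e77370_co

/-- The parameters are admissible: `t ≥ 2`, `q ≥ 1`, `k_1 ≥ k_2 ≥ ⋯ ≥ k_t ≥ q + 1` and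
`n ≥ k_1 + k_2 - q + 1`. -/
def Admissible (t q n : ℕ) (k : ℕ → ℕ) : Prop :=
  2 ≤ t ∧ 1 ≤ q ∧ (∀ i j, 1 ≤ i → i ≤ j → j ≤ t → k j ≤ k i) ∧ q + 1 ≤ k t ∧
    k 1 + k 2 + 1 ≤ n + q

/-- The number `M_1` of the problem. -/
def M₁ (t q n : ℕ) (k : ℕ → ℕ) : ℤ :=
  (n.choose (k 1) : ℤ) - ∑ j ∈ range q, ((k t).choose j : ℤ) * ((n - k t).choose (k 1 - j) : ℤ) +
    ∑ j ∈ Icc 2 t, ((n - k t).choose (k j - k t) : ℤ)

/-- The number `M_2` of the problem. -/
def M₂ (t q n : ℕ) (k : ℕ → ℕ) : ℤ := ∑ j ∈ Icc 1 t, ((n - q).choose (k j - q) : ℤ)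

/-- `𝓕 1, …, 𝓕 t` are non-empty cross-`q`-intersecting families, `𝓕 j` consisting of
`k_j`-element subsets of `{1, …, n}`. -/
structure IsCross (t q n : ℕ) (k : ℕ → ℕ) (𝓕 : ℕ → Finset (Finset ℕ)) : Prop where
  subset : ∀ j ∈ Icc 1 t, 𝓕 j ⊆ (Icc 1 n).powersetCard (k j)
  nonempty : ∀ j ∈ Icc 1 t, (𝓕 j).Nonempty
  cross : ∀ i ∈ Icc 1 t, ∀ j ∈ Icc 1 t, i ≠ j → ∀ F ∈ 𝓕 i, ∀ G ∈ 𝓕 j, q ≤ (F ∩ G).card

/-- The families used: the `K`-subsets of `{1, …, n}` with at least `m + q` elements in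
`{1, …, 2m}`. -/
def fam (q m n K : ℕ) : Finset (Finset ℕ) :=
  ((Icc 1 n).powersetCard K).filter (fun F => m + q ≤ (F ∩ Icc 1 (2 * m)).card)

lemma fam_cross {q m n K L : ℕ} {F G : Finset ℕ} (hF : F ∈ fam q m n K) (hG : G ∈ fam q m n L) :
    q ≤ (F ∩ G).card := by
  simp only [fam, mem_filter] at hF hG
  have h1 : ((F ∩ Icc 1 (2 * m)) ∩ (G ∩ Icc 1 (2 * m))).card ≤ (F ∩ G).card := by
    apply card_le_card
    intro x hx
    simp only [mem_inter] at hx ⊢
    exact ⟨hx.1.1, hx.2.1⟩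
  have h2 : ((F ∩ Icc 1 (2 * m)) ∪ (G ∩ Icc 1 (2 * m))).card ≤ 2 * m := by
    calc _ ≤ (Icc 1 (2 * m)).card := by
          apply card_le_card
          intro x hx
          simp only [mem_union, mem_inter] at hx ⊢
          tauto
      _ = 2 * m := by simp
  have h3 := card_union_add_card_inter (F ∩ Icc 1 (2 * m)) (G ∩ Icc 1 (2 * m))
  omega

lemma card_fam_ge {q m n K : ℕ} (hn : 2 * m ≤ n) (hK : 2 * m ≤ K) :
    ∑ A ∈ (Icc 1 (2 * m)).powerset.filter (fun A => m + q ≤ A.card),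
      (n - 2 * m).choose (K - A.card) ≤ (fam q m n K).card := by
  classical
  have e1 : ∀ A ∈ (Icc 1 (2 * m)).powerset.filter (fun A => m + q ≤ A.card),
      (n - 2 * m).choose (K - A.card) =
      (((Icc (2 * m + 1) n).powersetCard (K - A.card)).image (fun B => A ∪ B)).card := by
    intro A hA
    simp only [mem_filter, mem_powerset] at hA
    rw [card_image_of_injOn, card_powersetCard, Nat.card_Icc]
    · congr 1
      omega
    · intro B hB C hC hBC
      have hdisj : ∀ D ∈ ((Icc (2 * m + 1) n).powersetCard (K - A.card) : Finset (Finset ℕ)),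
          (A ∪ D) \ (Icc 1 (2 * m)) = D := by
        intro D hD
        rw [mem_powersetCard] at hD
        ext x
        simp only [Finset.mem_sdiff, mem_union, mem_Icc]
        constructor
        · rintro ⟨h | h, h'⟩
          · exact absurd (mem_Icc.1 (hA.1 h)) h'
          · exact h
        · intro h
          have := mem_Icc.1 (hD.1 h)
          exact ⟨Or.inr h, by omega⟩
      have h1 := hdisj B hB
      have h2 := hdisj C hC
      simp only at hBC
      rw [← h1, ← h2, hBC]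
  rw [sum_congr rfl e1, ← card_biUnion]
  · apply card_le_card
    intro F hF
    simp only [mem_biUnion, mem_image, mem_filter, mem_powerset, mem_powersetCard] at hF
    obtain ⟨A, ⟨hA, hAc⟩, B, ⟨hB, hBc⟩, rfl⟩ := hF
    have hAB : Disjoint A B := by
      rw [disjoint_left]
      intro x hx hx'
      have := mem_Icc.1 (hA hx)
      have := mem_Icc.1 (hB hx')
      omega
    have hAle : A.card ≤ 2 * m := by
      have := card_le_card hA
      simpa using this
    simp only [fam, mem_filter, mem_powersetCard]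
    refine ⟨⟨?_, ?_⟩, ?_⟩
    · intro x hx
      rw [mem_union] at hx
      rw [mem_Icc]
      rcases hx with hx | hx
      · have := mem_Icc.1 (hA hx)
        omega
      · have := mem_Icc.1 (hB hx)
        omega
    · rw [card_union_of_disjoint hAB, hBc]
      omega
    · refine hAc.trans (card_le_card ?_)
      intro x hx
      rw [mem_inter, mem_union]
      exact ⟨Or.inl hx, hA hx⟩
  · intro A hA B hB hAB
    simp only [coe_filter, Set.mem_ofPred_eq, mem_powerset] at hA hB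
    change Disjoint _ _
    rw [disjoint_left]
    intro F hF hF'
    simp only [mem_image, mem_powersetCard] at hF hF'
    obtain ⟨C, ⟨hC, -⟩, rfl⟩ := hF
    obtain ⟨D, ⟨hD, -⟩, hDC⟩ := hF'
    apply hAB
    have key : ∀ (X Y : Finset ℕ), X ⊆ Icc 1 (2 * m) → Y ⊆ Icc (2 * m + 1) n →
        (X ∪ Y) ∩ (Icc 1 (2 * m)) = X := by
      intro X Y hX hY
      ext x
      simp only [mem_inter, mem_union]
      constructor
      · rintro ⟨h | h, h'⟩
        · exact h
        · have := mem_Icc.1 (hY h)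
          have := mem_Icc.1 h'
          omega
      · intro h
        exact ⟨Or.inl h, hX h⟩
    rw [← key A C hA.1 hC, ← key B D hB.1 hD, hDC]

lemma choose_sub_le {n K a : ℕ} (b : ℕ) (ha : a + b ≤ n) (hb : a + b ≤ K) :
    (n - (a + b)).choose (K - (a + b)) ≤ (n - a).choose (K - a) := by
  induction b with
  | zero => simp
  | succ b ih =>
    refine le_trans ?_ (ih (by omega) (by omega))
    have e1 : n - (a + b) = (n - (a + (b + 1))) + 1 := by omega
    have e2 : K - (a + b) = (K - (a + (b + 1))) + 1 := by omega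
    rw [e1, e2, Nat.choose_succ_succ']
    exact Nat.le_add_right _ _

/-- **The proposed bound fails for every `q ≥ 2` and every `t ≥ 3`.** Fix `q ≥ 2`, `t ≥ 3`,
integers `d 1 ≥ d 2 ≥ ⋯ ≥ d t ≥ 0` and `c ≥ 0`. For all sufficiently large `x`, the sizes
`k_j = x + d j` and the ground set size `n = k_1 + k_2 + c` are admissible and there are non-empty
cross-`q`-intersecting families of these sizes whose total size exceeds `max (M_1, M_2)`. -/
theorem result (q t : ℕ) (hq : 2 ≤ q) (ht : 3 ≤ t) (d : ℕ → ℕ)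
    (hd : ∀ i j, 1 ≤ i → i ≤ j → j ≤ t → d j ≤ d i) (c : ℕ) :
    ∃ x₀ : ℕ, ∀ x ≥ x₀,
      Admissible t q ((x + d 1) + (x + d 2) + c) (fun j => x + d j) ∧
      ∃ 𝓕 : ℕ → Finset (Finset ℕ),
        IsCross t q ((x + d 1) + (x + d 2) + c) (fun j => x + d j) 𝓕 ∧
        max (M₁ t q ((x + d 1) + (x + d 2) + c) (fun j => x + d j))
          (M₂ t q ((x + d 1) + (x + d 2) + c) (fun j => x + d j)) <
          ∑ j ∈ Icc 1 t, ((𝓕 j).card : ℤ) := by
  classical
  set m := 32 * q ^ 2 with hm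
  set s := 2 * m with hs
  set D := d 1 + d 2 + c with hD
  have hq2 : q ≤ q ^ 2 := by nlinarith
  have hsq : q ≤ s := by omega
  have hs24 : 6 ≤ s := by omega
  set 𝓐 := (Icc 1 s).powerset.filter (fun A => m + q ≤ A.card) with h𝓐
  have hAcard : 3 * 4 ^ m ≤ 8 * 𝓐.card := large_subsets q m hm (Icc 1 s) (by simp [hs])
  -- the three limits
  have L1 : Tendsto (fun y : ℕ => (∑ j ∈ Icc 1 t, ∑ A ∈ 𝓐,
      ((2 * y + (s + D)).choose (y + (s - A.card + d j)) : ℝ)) / ((2 * y).choose y : ℝ)) atTop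
      (𝓝 (∑ j ∈ Icc 1 t, ∑ A ∈ 𝓐, (2 : ℝ) ^ (s + D))) := by
    have : Tendsto (fun y : ℕ => ∑ j ∈ Icc 1 t, ∑ A ∈ 𝓐,
        ((2 * y + (s + D)).choose (y + (s - A.card + d j)) : ℝ) / ((2 * y).choose y : ℝ)) atTop
        (𝓝 (∑ j ∈ Icc 1 t, ∑ A ∈ 𝓐, (2 : ℝ) ^ (s + D))) :=
      tendsto_finsetSum _ fun j _ => tendsto_finsetSum _ fun A _ => tendsto_ratio _ _
    refine this.congr fun y => ?_
    rw [sum_div]
    exact sum_congr rfl fun j _ => (sum_div _ _ _).symm
  have L2 : Tendsto (fun y : ℕ => (((2 * y + (2 * s + D)).choose (y + (s + d 1)) : ℝ) +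
      ∑ j ∈ Icc 2 t, ((2 * y + (s + D)).choose (y + d j) : ℝ)) / ((2 * y).choose y : ℝ)) atTop
      (𝓝 ((2 : ℝ) ^ (2 * s + D) + ∑ j ∈ Icc 2 t, (2 : ℝ) ^ (s + D))) := by
    have := (tendsto_ratio (2 * s + D) (s + d 1)).add
      (tendsto_finsetSum (Icc 2 t) fun j _ => tendsto_ratio (s + D) (d j))
    refine this.congr fun y => ?_
    rw [add_div, sum_div]
  have L3 : Tendsto (fun y : ℕ => (∑ j ∈ Icc 1 t,
      ((2 * y + (2 * s + D - q)).choose (y + (s - q + d j)) : ℝ)) / ((2 * y).choose y : ℝ)) atTop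
      (𝓝 (∑ j ∈ Icc 1 t, (2 : ℝ) ^ (2 * s + D - q))) := by
    have := tendsto_finsetSum (Icc 1 t) fun j _ => tendsto_ratio (2 * s + D - q) (s - q + d j)
    refine this.congr fun y => ?_
    rw [sum_div]
  -- comparison of the limits
  have ht' : (3 : ℝ) ≤ t := by exact_mod_cast ht
  have hA' : (3 / 8 : ℝ) * 2 ^ s ≤ (𝓐.card : ℝ) := by
    have h1 : (3 : ℝ) * 4 ^ m ≤ 8 * 𝓐.card := by exact_mod_cast hAcard
    have h2 : (2 : ℝ) ^ s = 4 ^ m := by
      rw [hs, pow_mul]; norm_num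
    rw [h2]
    linarith
  have hlow : (t : ℝ) * (3 / 8) * 2 ^ (2 * s + D) ≤ ∑ j ∈ Icc 1 t, ∑ A ∈ 𝓐, (2 : ℝ) ^ (s + D) := by
    simp only [sum_const, Nat.card_Icc, nsmul_eq_mul]
    have e1 : (2 : ℝ) ^ (2 * s + D) = 2 ^ s * 2 ^ (s + D) := by
      rw [← pow_add]; congr 1; ring
    rw [e1, show t + 1 - 1 = t by omega]
    have h0 : (0 : ℝ) ≤ 2 ^ (s + D) := by positivity
    calc (t : ℝ) * (3 / 8) * (2 ^ s * 2 ^ (s + D)) = t * (((3 / 8 : ℝ) * 2 ^ s) * 2 ^ (s + D)) := by
          ring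
      _ ≤ t * ((𝓐.card : ℝ) * 2 ^ (s + D)) := by
          apply mul_le_mul_of_nonneg_left _ (by positivity)
          exact mul_le_mul_of_nonneg_right hA' h0
  have hlt1 : (2 : ℝ) ^ (2 * s + D) + ∑ j ∈ Icc 2 t, (2 : ℝ) ^ (s + D) <
      ∑ j ∈ Icc 1 t, ∑ A ∈ 𝓐, (2 : ℝ) ^ (s + D) := by
    refine lt_of_lt_of_le ?_ hlow
    simp only [sum_const, Nat.card_Icc, nsmul_eq_mul]
    have e1 : (2 : ℝ) ^ (2 * s + D) = 2 ^ s * 2 ^ (s + D) := by
      rw [← pow_add]; congr 1; ring
    have e2 : ((t + 1 - 2 : ℕ) : ℝ) = t - 1 := by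
      rw [show t + 1 - 2 = t - 1 by omega, Nat.cast_sub (by omega), Nat.cast_one]
    rw [e1, e2]
    have h0 : (0 : ℝ) < 2 ^ (s + D) := by positivity
    have h64 : (64 : ℝ) ≤ 2 ^ s := by
      calc (64 : ℝ) = 2 ^ 6 := by norm_num
        _ ≤ 2 ^ s := pow_le_pow_right₀ (by norm_num) hs24
    have h1 : (2 : ℝ) ^ s + (t - 1) < t * (3 / 8) * 2 ^ s := by nlinarith
    calc (2 : ℝ) ^ s * 2 ^ (s + D) + (t - 1) * 2 ^ (s + D) = (2 ^ s + (t - 1)) * 2 ^ (s + D) := by
          ring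
      _ < (t * (3 / 8) * 2 ^ s) * 2 ^ (s + D) := by
          exact mul_lt_mul_of_pos_right h1 h0
      _ = t * (3 / 8) * (2 ^ s * 2 ^ (s + D)) := by ring
  have hlt2 : ∑ j ∈ Icc 1 t, (2 : ℝ) ^ (2 * s + D - q) <
      ∑ j ∈ Icc 1 t, ∑ A ∈ 𝓐, (2 : ℝ) ^ (s + D) := by
    refine lt_of_lt_of_le ?_ hlow
    simp only [sum_const, Nat.card_Icc, nsmul_eq_mul]
    rw [show t + 1 - 1 = t by omega]
    have h1 : (2 : ℝ) ^ (2 * s + D - q) ≤ 2 ^ (2 * s + D) * (1 / 4) := by
      have e1 : (2 : ℝ) ^ (2 * s + D) = 2 ^ (2 * s + D - q) * 2 ^ q := by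
        rw [← pow_add]; congr 1; omega
      have h4 : (4 : ℝ) ≤ 2 ^ q := by
        calc (4 : ℝ) = 2 ^ 2 := by norm_num
          _ ≤ 2 ^ q := pow_le_pow_right₀ (by norm_num) hq
      have h0 : (0 : ℝ) < 2 ^ (2 * s + D - q) := by positivity
      rw [e1]
      nlinarith
    have h0 : (0 : ℝ) < 2 ^ (2 * s + D) := by positivity
    nlinarith
  have E1 := L2.eventually_lt L1 hlt1
  have E2 := L3.eventually_lt L1 hlt2
  obtain ⟨y₀, hy₀⟩ := eventually_atTop.1 (E1.and E2)
  refine ⟨y₀ + s + q + 1, fun x hx => ?_⟩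
  obtain ⟨y, rfl⟩ : ∃ y, x = y + s := ⟨x - s, by omega⟩
  have hy : y₀ ≤ y := by omega
  obtain ⟨hE1, hE2⟩ := hy₀ y hy
  have hpos : (0 : ℝ) < ((2 * y).choose y : ℝ) := by
    exact_mod_cast Nat.choose_pos (show y ≤ 2 * y by omega)
  rw [div_lt_div_iff_of_pos_right hpos] at hE1 hE2
  set n := (y + s + d 1) + (y + s + d 2) + c with hn
  have hdt : ∀ j ∈ Icc 1 t, d t ≤ d j ∧ d j ≤ d 1 := by
    intro j hj
    rw [mem_Icc] at hj
    exact ⟨hd j t hj.1 hj.2 le_rfl, hd 1 j le_rfl hj.1 hj.2⟩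
  have hn1 : n - s = 2 * y + (s + D) := by omega
  have hn2 : n = 2 * y + (2 * s + D) := by omega
  have hfam : ∀ j ∈ Icc 1 t, ∑ A ∈ 𝓐, (2 * y + (s + D)).choose (y + (s - A.card + d j)) ≤
      (fam q m n (y + s + d j)).card := by
    intro j hj
    refine le_trans (le_of_eq ?_) (card_fam_ge (q := q) (m := m) (n := n) (K := y + s + d j)
      (by omega) (by omega))
    apply sum_congr rfl
    intro A hA
    simp only [h𝓐, mem_filter, mem_powerset] at hA
    have hAle : A.card ≤ s := by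
      have := card_le_card hA.1
      simpa using this
    rw [← hs, hn1]
    congr 1
    omega
  refine ⟨⟨by omega, by omega, ?_, ?_, ?_⟩, fun j => fam q m n (y + s + d j), ⟨?_, ?_, ?_⟩, ?_⟩
  · intro i j hi hij hj
    have := hd i j hi hij hj
    simp only
    omega
  · simp only
    omega
  · simp only
    omega
  · intro j _
    exact filter_subset _ _
  · intro j hj
    rw [← card_pos]
    refine lt_of_lt_of_le ?_ (hfam j hj)
    apply sum_pos
    · intro A hA
      apply Nat.choose_pos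
      have := (hdt j hj).2
      omega
    · rw [← card_pos]
      have : 0 < 4 ^ m := by positivity
      omega
  · intro i _ j _ _ F hF G hG
    exact fam_cross hF hG
  · have hsum : (∑ j ∈ Icc 1 t, ∑ A ∈ 𝓐,
        ((2 * y + (s + D)).choose (y + (s - A.card + d j)) : ℤ)) ≤
        ∑ j ∈ Icc 1 t, ((fam q m n (y + s + d j)).card : ℤ) := by
      apply sum_le_sum
      intro j hj
      exact_mod_cast hfam j hj
    rw [max_lt_iff]
    constructor
    · have hE1' : ((2 * y + (2 * s + D)).choose (y + (s + d 1)) : ℤ) +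
          ∑ j ∈ Icc 2 t, ((2 * y + (s + D)).choose (y + d j) : ℤ) <
          ∑ j ∈ Icc 1 t, ∑ A ∈ 𝓐,
            ((2 * y + (s + D)).choose (y + (s - A.card + d j)) : ℤ) := by
        exact_mod_cast hE1
      refine lt_of_le_of_lt ?_ (lt_of_lt_of_le hE1' hsum)
      unfold M₁
      have h1 : (0 : ℤ) ≤ ∑ j ∈ range q, ((y + s + d t).choose j : ℤ) *
          ((n - (y + s + d t)).choose (y + s + d 1 - j) : ℤ) := by
        apply sum_nonneg
        intro j _
        positivity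
      have h2 : ∑ j ∈ Icc 2 t, ((n - (y + s + d t)).choose (y + s + d j - (y + s + d t)) : ℤ) ≤
          ∑ j ∈ Icc 2 t, ((2 * y + (s + D)).choose (y + d j) : ℤ) := by
        apply sum_le_sum
        intro j hj
        rw [mem_Icc] at hj
        have hj' := hdt j (mem_Icc.2 ⟨by omega, hj.2⟩)
        have h3 := choose_sub_le (n := n) (K := y + s + d j) (a := s) (y + d t)
          (by omega) (by omega)
        have e1 : n - (s + (y + d t)) = n - (y + s + d t) := by omega
        have e2 : y + s + d j - (s + (y + d t)) = y + s + d j - (y + s + d t) := by omega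
        have e3 : y + s + d j - s = y + d j := by omega
        rw [e1, e2, e3, hn1] at h3
        exact_mod_cast h3
      have e4 : (n.choose (y + s + d 1) : ℤ) =
          ((2 * y + (2 * s + D)).choose (y + (s + d 1)) : ℤ) := by
        rw [hn2, add_assoc y s]
      simp only
      rw [e4]
      linarith
    · have hE2' : ∑ j ∈ Icc 1 t, ((2 * y + (2 * s + D - q)).choose (y + (s - q + d j)) : ℤ) <
          ∑ j ∈ Icc 1 t, ∑ A ∈ 𝓐,
            ((2 * y + (s + D)).choose (y + (s - A.card + d j)) : ℤ) := by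
        exact_mod_cast hE2
      refine lt_of_le_of_lt (le_of_eq ?_) (lt_of_lt_of_le hE2' hsum)
      unfold M₂
      apply sum_congr rfl
      intro j _
      have e1 : n - q = 2 * y + (2 * s + D - q) := by omega
      have e2 : y + s + d j - q = y + (s - q + d j) := by omega
      simp only
      rw [e1, e2]

end Pool.Agent.Results.MP_e77370_co.Disproof
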