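import Mathlib

/-!
# Non-empty cross-`q`-intersecting families: the proposed bound fails for every `q ≥ 2`

For every `q ≥ 2`, every `k ≥ q + 1`, every `n` with `2k - q + 1 ≤ n < (q+1)(k-q+1)` and all
large `t`, the parameters `t, q, k_1 = … = k_t = k, n` are admissible and the bound
`max {M_1, M_2}` is exceeded.  The families are `F_1 = … = F_t = {A : |A ∩ [q+2]| ≥ q+1}`.
-/

namespace Pool.Agent.Results.MP_e77370_co.FailsForAllQ

open Finset

/-- The conditions on the parameters: `t ≥ 2`, `q ≥ 1`, `k_1 ≥ k_2 ≥ … ≥ k_t ≥ q + 1` and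
`n ≥ k_1 + k_2 - q + 1`. -/
structure Admissible (t q n : ℕ) (k : ℕ → ℕ) : Prop where
  two_le : 2 ≤ t
  one_le : 1 ≤ q
  anti : ∀ i j, 1 ≤ i → i ≤ j → j ≤ t → k j ≤ k i
  last : q + 1 ≤ k t
  large : k 1 + k 2 + 1 ≤ n + q

/-- The families `F_1, …, F_t` are non-empty, `F_j` consists of `k_j`-element subsets of an
`n`-element set, and they are pairwise cross-`q`-intersecting. -/
structure CrossIntersecting (t q n : ℕ) (k : ℕ → ℕ) (F : ℕ → Finset (Finset (Fin n))) :
    Prop where
  size : ∀ j, 1 ≤ j → j ≤ t → ∀ A ∈ F j, A.card = k j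
  nonempty : ∀ j, 1 ≤ j → j ≤ t → (F j).Nonempty
  cross : ∀ i j, 1 ≤ i → i ≤ t → 1 ≤ j → j ≤ t → i ≠ j → ∀ A ∈ F i, ∀ B ∈ F j, q ≤ (A ∩ B).card

/-- The number `M_1`. -/
def M1 (t q n : ℕ) (k : ℕ → ℕ) : ℤ :=
  (n.choose (k 1) : ℤ) - ∑ j ∈ range q, ((k t).choose j : ℤ) * ((n - k t).choose (k 1 - j) : ℤ)
    + ∑ j ∈ Icc 2 t, ((n - k t).choose (k j - k t) : ℤ)

/-- The number `M_2`. -/
def M2 (t q n : ℕ) (k : ℕ → ℕ) : ℤ := ∑ j ∈ Icc 1 t, ((n - q).choose (k j - q) : ℤ)

/-- The statement of Q1. -/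
def Q1 : Prop := ∀ (t q n : ℕ) (k : ℕ → ℕ), Admissible t q n k →
  ∀ F : ℕ → Finset (Finset (Fin n)), CrossIntersecting t q n k F →
    ((∑ j ∈ Icc 1 t, (F j).card : ℕ) : ℤ) ≤ max (M1 t q n k) (M2 t q n k)

/-- the family of `k`-subsets meeting `T` in at least `q+1` points -/
def fam {n : ℕ} (k q : ℕ) (T : Finset (Fin n)) : Finset (Finset (Fin n)) :=
  (powersetCard k univ).filter fun A => q + 1 ≤ (A ∩ T).card

lemma mem_fam {n k q : ℕ} {T A : Finset (Fin n)} :
    A ∈ fam k q T ↔ A.card = k ∧ q + 1 ≤ (A ∩ T).card := by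
  simp [fam, mem_powersetCard]

/-- sets of the form `U ∪ B` with `U ⊆ T` of size `u` and `B` disjoint from `T` of size `b` -/
def pieces {n : ℕ} (T : Finset (Fin n)) (u b : ℕ) : Finset (Finset (Fin n)) :=
  ((powersetCard u T) ×ˢ (powersetCard b Tᶜ)).image fun p => p.1 ∪ p.2

lemma mem_pieces {n : ℕ} {T A : Finset (Fin n)} {u b : ℕ} (h : A ∈ pieces T u b) :
    A.card = u + b ∧ (A ∩ T).card = u := by
  unfold pieces at h
  rw [mem_image] at h
  obtain ⟨⟨U, B⟩, hp, rfl⟩ := h
  rw [mem_product, mem_powersetCard, mem_powersetCard] at hp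
  obtain ⟨⟨hU, hUc⟩, hB, hBc⟩ := hp
  dsimp only at hU hUc hB hBc ⊢
  have hdisj : Disjoint U B := by
    rw [disjoint_left]
    intro x hx hxB
    exact (mem_compl.mp (hB hxB)) (hU hx)
  have hi : (U ∪ B) ∩ T = U := by
    ext x
    simp only [mem_inter, mem_union]
    constructor
    · rintro ⟨h | h, hT⟩
      · exact h
      · exact absurd hT (mem_compl.mp (hB h))
    · intro h
      exact ⟨Or.inl h, hU h⟩
  rw [hi, card_union_of_disjoint hdisj, hUc, hBc]
  exact ⟨rfl, rfl⟩

lemma card_pieces {n : ℕ} (T : Finset (Fin n)) (u b : ℕ) :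
    (pieces T u b).card = T.card.choose u * (n - T.card).choose b := by
  unfold pieces
  rw [card_image_of_injOn, card_product, card_powersetCard, card_powersetCard, card_compl,
    Fintype.card_fin]
  rintro ⟨U, B⟩ hp ⟨U', B'⟩ hp' heq
  rw [mem_coe, mem_product, mem_powersetCard, mem_powersetCard] at hp hp'
  dsimp only at hp hp' heq
  have h1 : ∀ x, x ∈ U ↔ x ∈ U' := by
    intro x
    constructor
    · intro hx
      have : x ∈ U' ∪ B' := heq ▸ mem_union_left B hx
      rcases mem_union.mp this with h | h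
      · exact h
      · exact absurd (hp.1.1 hx) (mem_compl.mp (hp'.2.1 h))
    · intro hx
      have : x ∈ U ∪ B := heq.symm ▸ mem_union_left B' hx
      rcases mem_union.mp this with h | h
      · exact h
      · exact absurd (hp'.1.1 hx) (mem_compl.mp (hp.2.1 h))
  have h2 : ∀ x, x ∈ B ↔ x ∈ B' := by
    intro x
    constructor
    · intro hx
      have : x ∈ U' ∪ B' := heq ▸ mem_union_right U hx
      rcases mem_union.mp this with h | h
      · exact absurd (hp'.1.1 h) (mem_compl.mp (hp.2.1 hx))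
      · exact h
    · intro hx
      have : x ∈ U ∪ B := heq.symm ▸ mem_union_right U' hx
      rcases mem_union.mp this with h | h
      · exact absurd (hp.1.1 h) (mem_compl.mp (hp'.2.1 hx))
      · exact h
  rw [Finset.ext h1, Finset.ext h2]

/-- the size of the family is larger than that of a star -/
lemma card_fam_gt {n k q : ℕ} (_hq : 2 ≤ q) (hk : q + 1 ≤ k) (hn : 2 * k + 1 ≤ n + q)
    (hn' : n < (q + 1) * (k - q + 1)) (T : Finset (Fin n)) (hT : T.card = q + 2) :
    (n - q).choose (k - q) < (fam k q T).card := by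
  obtain ⟨j, rfl⟩ : ∃ j, k = q + 1 + j := ⟨k - (q + 1), by omega⟩
  obtain ⟨m, rfl⟩ : ∃ m, n = q + 2 + m := ⟨n - (q + 2), by omega⟩
  have e1 : q + 2 + m - q = m + 2 := by omega
  have e2 : q + 1 + j - q = j + 1 := by omega
  rw [e1, e2]
  rw [e2] at hn'
  -- the numerical inequality
  have hmj : j ≤ m := by omega
  have hpos : 0 < m.choose j := Nat.choose_pos hmj
  have hnum : m.choose (j + 1) < q * m.choose j := by
    have h1 := Nat.choose_succ_right_eq m j
    have h2 : m - j < q * (j + 1) := by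
      have : (q + 1) * (j + 1 + 1) = q * (j + 1) + (q + j + 2) := by ring
      omega
    by_contra hcon
    push Not at hcon
    have h3 : q * m.choose j * (j + 1) ≤ m.choose j * (m - j) := by
      rw [← h1]; exact Nat.mul_le_mul_right _ hcon
    have h4 : m.choose j * (m - j) < m.choose j * (q * (j + 1)) :=
      Nat.mul_lt_mul_of_pos_left h2 hpos
    have h5 : q * m.choose j * (j + 1) = m.choose j * (q * (j + 1)) := by ring
    omega
  have hA : pieces T (q + 1) j ⊆ fam (q + 1 + j) q T := by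
    intro A hA
    obtain ⟨h1, h2⟩ := mem_pieces hA
    rw [mem_fam, h1, h2]
    exact ⟨rfl, le_rfl⟩
  have hcA : (pieces T (q + 1) j).card = (q + 2) * m.choose j := by
    rw [card_pieces, hT]
    have : (q + 2).choose (q + 1) = q + 2 := Nat.choose_succ_self_right (q + 1)
    rw [this, show q + 2 + m - (q + 2) = m by omega]
  rcases Nat.eq_zero_or_pos j with rfl | hj
  · -- `k = q + 1`
    have h1 := card_le_card hA
    rw [hcA] at h1
    simp only [Nat.choose_zero_right, zero_add, Nat.choose_one_right, mul_one] at h1 hnum ⊢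
    omega
  · obtain ⟨i, rfl⟩ : ∃ i, j = i + 1 := ⟨j - 1, by omega⟩
    have hB : pieces T (q + 2) i ⊆ fam (q + 1 + (i + 1)) q T := by
      intro A hA
      obtain ⟨h1, h2⟩ := mem_pieces hA
      rw [mem_fam, h1, h2]
      omega
    have hcB : (pieces T (q + 2) i).card = m.choose i := by
      rw [card_pieces, hT, Nat.choose_self, one_mul, show q + 2 + m - (q + 2) = m by omega]
    have hdisj : Disjoint (pieces T (q + 1) (i + 1)) (pieces T (q + 2) i) := by
      rw [disjoint_left]
      intro A h1 h2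
      have h3 := (mem_pieces h1).2
      have h4 := (mem_pieces h2).2
      omega
    have h1 := card_le_card (union_subset hA hB)
    rw [card_union_of_disjoint hdisj, hcA, hcB] at h1
    have h2 : (m + 2).choose (i + 1 + 1) =
        m.choose i + 2 * m.choose (i + 1) + m.choose (i + 2) := by
      rw [Nat.choose_succ_succ (m + 1) (i + 1), Nat.choose_succ_succ m i,
        Nat.choose_succ_succ m (i + 1)]
      ring
    rw [h2]
    have h3 : (q + 2) * m.choose (i + 1) = q * m.choose (i + 1) + 2 * m.choose (i + 1) := by ring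
    have h4 : m.choose (i + 1 + 1) = m.choose (i + 2) := rfl
    omega

/-- **Main theorem.** For all `q ≥ 2`, `k ≥ q + 1` and `n` with
`2k - q + 1 ≤ n < (q+1)(k-q+1)` (for given `q < k` there are always such `n`), and for all
sufficiently large `t`, the parameters `t, q, k_1 = … = k_t = k, n` are admissible and there are
non-empty cross-`q`-intersecting families whose total size exceeds `max {M_1, M_2}`.
In particular the statement of Q1 is false. -/
theorem result :
    (∀ q k n : ℕ, 2 ≤ q → q + 1 ≤ k → 2 * k + 1 ≤ n + q → n < (q + 1) * (k - q + 1) →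
      ∃ t₀ : ℕ, ∀ t ≥ t₀, Admissible t q n (fun _ => k) ∧
        ∃ F : ℕ → Finset (Finset (Fin n)), CrossIntersecting t q n (fun _ => k) F ∧
          max (M1 t q n (fun _ => k)) (M2 t q n (fun _ => k)) <
            ((∑ j ∈ Icc 1 t, (F j).card : ℕ) : ℤ)) ∧
    (∀ q k : ℕ, 2 ≤ q → q + 1 ≤ k → ∃ n : ℕ, 2 * k + 1 ≤ n + q ∧ n < (q + 1) * (k - q + 1)) ∧
    ¬ Q1 := by
  have main : ∀ q k n : ℕ, 2 ≤ q → q + 1 ≤ k → 2 * k + 1 ≤ n + q → n < (q + 1) * (k - q + 1) →
      ∃ t₀ : ℕ, ∀ t ≥ t₀, Admissible t q n (fun _ => k) ∧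
        ∃ F : ℕ → Finset (Finset (Fin n)), CrossIntersecting t q n (fun _ => k) F ∧
          max (M1 t q n (fun _ => k)) (M2 t q n (fun _ => k)) <
            ((∑ j ∈ Icc 1 t, (F j).card : ℕ) : ℤ) := by
    intro q k n hq hk hn hn'
    refine ⟨n.choose k + 2, fun t ht => ⟨⟨by omega, by omega, fun _ _ _ _ _ => le_rfl, hk,
      by omega⟩, ?_⟩⟩
    obtain ⟨T, -, hT⟩ : ∃ T ⊆ (univ : Finset (Fin n)), T.card = q + 2 :=
      exists_subset_card_eq (by rw [card_univ, Fintype.card_fin]; omega)
    have hgt := card_fam_gt hq hk hn hn' T hT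
    have hstar : 0 < (n - q).choose (k - q) := Nat.choose_pos (by omega)
    refine ⟨fun _ => fam k q T, ⟨fun _ _ _ A hA => (mem_fam.mp hA).1,
      fun _ _ _ => card_pos.mp (by omega), ?_⟩, ?_⟩
    · intro _ _ _ _ _ _ _ A hA B hB
      have h1 := (mem_fam.mp hA).2
      have h2 := (mem_fam.mp hB).2
      have h3 : ((A ∩ T) ∩ (B ∩ T)).card ≤ (A ∩ B).card :=
        card_le_card fun x hx => by
          simp only [mem_inter] at hx ⊢
          exact ⟨hx.1.1, hx.2.1⟩
      have h4 : ((A ∩ T) ∪ (B ∩ T)).card ≤ T.card :=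
        card_le_card (union_subset inter_subset_right inter_subset_right)
      have h5 := card_union_add_card_inter (A ∩ T) (B ∩ T)
      omega
    · have hsum : (∑ j ∈ Icc 1 t, (fam k q T).card) = t * (fam k q T).card := by
        rw [sum_const, Nat.card_Icc, smul_eq_mul]
        congr 1
      rw [hsum, max_lt_iff]
      constructor
      · unfold M1
        dsimp only
        have h1 : (0 : ℤ) ≤ ∑ j ∈ range q, (k.choose j : ℤ) * ((n - k).choose (k - j) : ℤ) :=
          sum_nonneg fun _ _ => by positivity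
        rw [Nat.sub_self, Nat.choose_zero_right, sum_const, Nat.card_Icc, nsmul_eq_mul]
        have h2 : ((t + 1 - 2 : ℕ) : ℤ) = (t : ℤ) - 1 := by omega
        rw [h2]
        have h3 : n.choose k + t ≤ t * (fam k q T).card := by
          have : t * 2 ≤ t * (fam k q T).card := Nat.mul_le_mul_left _ (by omega)
          omega
        have h4 : ((n.choose k : ℕ) : ℤ) + (t : ℤ) ≤ ((t * (fam k q T).card : ℕ) : ℤ) := by
          exact_mod_cast h3
        push_cast at h4 ⊢
        linarith
      · unfold M2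
        dsimp only
        rw [sum_const, Nat.card_Icc, nsmul_eq_mul]
        have h2 : t + 1 - 1 = t := by omega
        rw [h2]
        have h3 : t * (n - q).choose (k - q) < t * (fam k q T).card :=
          Nat.mul_lt_mul_of_pos_left hgt (by omega)
        exact_mod_cast h3
  refine ⟨main, ?_, ?_⟩
  · intro q k hq hk
    refine ⟨2 * k + 1 - q, by omega, ?_⟩
    obtain ⟨j, rfl⟩ : ∃ j, k = q + 1 + j := ⟨k - (q + 1), by omega⟩
    rw [show q + 1 + j - q + 1 = j + 2 by omega]
    obtain ⟨p, rfl⟩ : ∃ p, q = p + 2 := ⟨q - 2, by omega⟩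
    have : (p + 2 + 1) * (j + 2) = p * j + 3 * j + 2 * p + 6 := by ring
    rw [this]
    have := Nat.zero_le (p * j)
    omega
  · intro h
    obtain ⟨t₀, ht⟩ := main 2 4 8 (by norm_num) (by norm_num) (by norm_num) (by norm_num)
    obtain ⟨hadm, F, hF, hlt⟩ := ht t₀ le_rfl
    exact absurd (h _ _ _ _ hadm F hF) (not_le.mpr hlt)

end Pool.Agent.Results.MP_e77370_co.FailsForAllQ
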